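import Pool.Agent.Helper79.TL.W1

/-!
# TL-D2: the scalar of the natural module
-/

set_option autoImplicit false
set_option linter.unusedSectionVars false

open Module
open Pool.Agent.Helper31.Brauer
open Pool.Agent.Helper79.TL
open Pool.Agent.Helper79.TL.GPre

namespace Pool.Agent.Helper79.TL.D2

variable {G : Type} [Group G] {D : GPre G} {F : Type} [Field F] [CharP F 3]
  {N : Representation F G (Fin 6 → F)}

lemma sgn_five (a : Fin 16) : sgn a 5 = 1 := by
  revert a; decide

lemma sgn_sum (i : Fin 6) (hi : i ≠ 5) : ∑ a, sgn a i = 0 := by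
  revert hi; revert i; decide

lemma E_nat (hN : NatRep D N) (v : Fin 6 → F) :
    D.E N v = (16 * v 5) • (Pi.single 5 1 : Fin 6 → F) := by
  funext i
  rw [E_apply, Finset.sum_apply, Finset.sum_congr rfl (fun a _ => hN.r a v i), ← Finset.sum_mul,
    ← Int.cast_sum]
  by_cases hi : i = 5
  · subst hi
    have : ∑ a, sgn a 5 = 16 := by decide
    rw [this]
    simp
  · rw [sgn_sum i hi]
    simp [hi]

/-- the vector `e₅` -/
def e5 (hN : NatRep D N) : ↥(D.Vl N) := ⟨Pi.single 5 1, by
  refine ⟨fun a => ?_, hN.z _⟩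
  funext i
  rw [hN.r]
  by_cases hi : i = 5
  · subst hi
    rw [sgn_five]
    simp
  · simp [hi]⟩

lemma e5_coe (hN : NatRep D N) : (e5 hN : Fin 6 → F) = Pi.single 5 1 := rfl

lemma t_e5 (hD : D.Good) (hN : NatRep D N) : tM N hD (e5 hN) = e5 hN := by
  apply Subtype.ext
  rw [tM_coe, e5_coe]
  funext i
  rw [hN.t]
  fin_cases i <;> simp

lemma Y_e5 (hD : D.Good) (hN : NatRep D N) (j : Fin 3) :
    YM N hD j (e5 hN) = (16 * (![1, 1, 0] : Fin 3 → F) j) • e5 hN := by
  apply Subtype.ext
  rw [YM_coe, e5_coe, E_nat hN, hN.x, Submodule.coe_smul, e5_coe]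

lemma tp_e5 (hD : D.Good) (hN : NatRep D N) (n : ℕ) : (tM N hD ^ n) (e5 hN) = e5 hN := by
  induction n with
  | zero => rw [pow_zero, Module.End.one_apply]
  | succ n ih => rw [pow_succ, Module.End.mul_apply, t_e5, ih]

lemma Z_e5 (hD : D.Good) (hN : NatRep D N) :
    Zop (tM N hD) (YM N hD) (e5 hN) = 0 := by
  have h0 : YM N hD 0 (e5 hN) = (16 : F) • e5 hN := by rw [Y_e5]; simp
  have h1 : YM N hD 1 (e5 hN) = (16 : F) • e5 hN := by rw [Y_e5]; simp
  have h2 : YM N hD 2 (e5 hN) = 0 := by rw [Y_e5]; simp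
  have hk : ∀ k ∈ Finset.range 5, (tM N hD ^ k * (YM N hD 0 * YM N hD 0 + YM N hD 1 * YM N hD 1 +
      YM N hD 2 * YM N hD 2) * tM N hD ^ (4 * k)) (e5 hN) = (512 : F) • e5 hN := by
    intro k _
    rw [Module.End.mul_apply, tp_e5, Module.End.mul_apply, LinearMap.add_apply,
      LinearMap.add_apply, Module.End.mul_apply, Module.End.mul_apply, Module.End.mul_apply,
      h0, h1, h2, map_zero, add_zero, map_smul, map_smul, h0, h1, ← add_smul, map_smul, map_smul,
      tp_e5, smul_smul]
    norm_num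
  have h32 : (32 : Module.End F ↥(D.Vl N)) (e5 hN) = (32 : F) • e5 hN := by
    have : (32 : Module.End F ↥(D.Vl N)) = (32 : F) • (1 : Module.End F ↥(D.Vl N)) := by
      rw [← Algebra.algebraMap_eq_smul_one]
      exact (map_ofNat (algebraMap F (Module.End F ↥(D.Vl N))) 32).symm
    rw [this, LinearMap.smul_apply, Module.End.one_apply]
  rw [Zop, LinearMap.add_apply, h32, LinearMap.sum_apply, Finset.sum_congr rfl hk,
    Finset.sum_const, Finset.card_range, ← Nat.cast_smul_eq_nsmul F, smul_smul, ← add_smul]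
  have h3 : (3 : F) = 0 := by
    have := CharP.cast_eq_zero F 3
    exact_mod_cast this
  have : (32 : F) + ((5 : ℕ) : F) * 512 = 3 * 864 := by norm_num
  rw [this, h3, zero_mul, zero_smul]

/-- TL-D2 -/
theorem nat_Lam [Fintype G] (hD : D.Good) (hN : NatRep D N) (lam : G → F)
    (hlam : ∀ g, classSum N g = lam g • (LinearMap.id : (Fin 6 → F) →ₗ[F] (Fin 6 → F))) :
    Lam D lam = 0 := by
  have h3 : (3 : F) = 0 := by
    have := CharP.cast_eq_zero F 3
    exact_mod_cast this
  have h2 : (2 : F) ≠ 0 := by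
    intro h
    have : (1 : F) = 3 - 2 := by norm_num
    rw [h3, h, sub_zero] at this
    exact one_ne_zero this
  have h := Zformula N hD h2 (e5 hN)
  rw [sum_E_of_classSum N lam hlam, Z_e5] at h
  have h5 := congrFun h 5
  rw [e5_coe] at h5
  simpa using h5

end Pool.Agent.Helper79.TL.D2
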